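import Mathlib

set_option autoImplicit false

namespace Pool.Agent.H765Z.KS

/-- The partial derivative of `f` in the `i`-th coordinate direction of `ℝ^n`. -/
noncomputable def pd {n : ℕ} (i : Fin n) (f : (Fin n → ℝ) → ℝ) (x : Fin n → ℝ) : ℝ :=
  fderiv ℝ f x (Pi.single i 1)

/-- The Christoffel symbol `Γ^k_{ij}` of the Levi-Civita connection of the metric with
coefficient matrix `g`. -/
noncomputable def chris {n : ℕ} (g : (Fin n → ℝ) → Matrix (Fin n) (Fin n) ℝ) (k i j : Fin n)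
    (x : Fin n → ℝ) : ℝ :=
  (1 / 2) * ∑ l, (g x)⁻¹ k l *
    (pd i (fun y => g y j l) x + pd j (fun y => g y i l) x - pd l (fun y => g y i j) x)

/-- The component `R^a_{bcd}` of the curvature tensor: `R(∂_c, ∂_d) ∂_b = R^a_{bcd} ∂_a` for
`R(X,Y)Z = ∇_X ∇_Y Z - ∇_Y ∇_X Z - ∇_{[X,Y]} Z`. -/
noncomputable def riem {n : ℕ} (g : (Fin n → ℝ) → Matrix (Fin n) (Fin n) ℝ) (a b c d : Fin n)
    (x : Fin n → ℝ) : ℝ :=
  pd c (chris g a d b) x - pd d (chris g a c b) x +
    ∑ e, (chris g a c e x * chris g e d b x - chris g a d e x * chris g e c b x)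

/-- The covariant derivative of a tensor field `T` with one upper index `a` and a list of lower
indices: the component of `∇T` with lower indices `c, l_1, ..., l_k` is
`∂_c T^a_l + Γ^a_{ce} T^e_l - ∑_i Γ^e_{c l_i} T^a_{l_1 .. e .. l_k}`. -/
noncomputable def covD {n : ℕ} (g : (Fin n → ℝ) → Matrix (Fin n) (Fin n) ℝ)
    (T : (Fin n → ℝ) → Fin n → List (Fin n) → ℝ) (x : Fin n → ℝ) (a : Fin n) :
    List (Fin n) → ℝ
  | [] => 0
  | c :: l => pd c (fun y => T y a l) x + ∑ e, chris g a c e x * T x e l -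
      ∑ i : Fin l.length, ∑ e, chris g e c (l.get i) x * T x a (l.set i e)

/-- The curvature tensor as a tensor field with lower index list `[b, c, d]`. -/
noncomputable def riemT {n : ℕ} (g : (Fin n → ℝ) → Matrix (Fin n) (Fin n) ℝ)
    (x : Fin n → ℝ) (a : Fin n) : List (Fin n) → ℝ
  | [b, c, d] => riem g a b c d x
  | _ => 0

/-- The component `∇_{l_1} ... ∇_{l_r} R^a_{bcd}` at `x` of `∇^r R`, where `r` is the length of
the list `l`. -/
noncomputable def nablaR {n : ℕ} (g : (Fin n → ℝ) → Matrix (Fin n) (Fin n) ℝ)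
    (l : List (Fin n)) (a b c d : Fin n) (x : Fin n → ℝ) : ℝ :=
  (covD g)^[l.length] (riemT g) x a (l ++ [b, c, d])

/-- The equation `∇^r R + t^(1) ⊗ ∇^{r-1} R + ... + t^(r) ⊗ R = 0` at the point `x`, where
`t [l_1, ..., l_m]` is the component `t_{l_1 ... l_m}` at `x` of the covariant tensor `t^(m)`. -/
def KSEq {n : ℕ} (g : (Fin n → ℝ) → Matrix (Fin n) (Fin n) ℝ) (r : ℕ) (t : List (Fin n) → ℝ)
    (x : Fin n → ℝ) : Prop :=
  ∀ l : List (Fin n), l.length = r → ∀ a b c d : Fin n,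
    nablaR g l a b c d x + ∑ m ∈ Finset.Icc 1 r, t (l.take m) * nablaR g (l.drop m) a b c d x = 0

end Pool.Agent.H765Z.KS
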