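import Pool.Agent.H765Z.KS.Main

set_option autoImplicit false

namespace Pool.Agent.H765Z.KS

lemma T0_eq (x : V) (a b c d : Fin 4) : riemT g0 x a [b, c, d] =
    (-12 * ex (-2) 0 x) * E1 a b c d x + (-1) * E2 a b c d x := riem_eq a b c d x

lemma T1_eq (x : V) (a p b c d : Fin 4) : covD g0 (riemT g0) x a [p, b, c, d] =
    (24 * dl 0 p * ex (-2) 0 x) * E1 a b c d x := by
  have hd : Differentiable ℝ (fun y => -12 * ex (-2) 0 y) := (ex_diff _ _).const_mul _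
  simp only [covD, chris_eq, List.length_cons, List.length_nil, Fin.sum_univ_succ (n := 2),
    Fin.sum_univ_succ (n := 1), Fin.sum_univ_succ (n := 0), Fin.sum_univ_zero, List.get_eq_getElem]
  simp only [Fin.val_zero, Fin.val_succ, List.getElem_cons_zero, List.getElem_cons_succ,
    List.set_cons_zero, List.set_cons_succ, T0_eq, zero_add]
  rw [pd_add p (f := fun y => -12 * ex (-2) 0 y * E1 a b c d y) (hd.mul (E1_diff _ _ _ _))
    ((E2_diff _ _ _ _).const_mul _), pd_mul p hd (E1_diff _ _ _ _), pd_cmul p _ (E2_diff _ _ _ _),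
    pd_cmul p _ (ex_diff _ _), pd_ex, E1_par, E2_par]
  simp only [Fin.sum_univ_four]
  ring

lemma covD5 (g : V → Matrix (Fin 4) (Fin 4) ℝ) (T : V → Fin 4 → List (Fin 4) → ℝ) (x : V)
    (a q p b c d : Fin 4) : covD g T x a [q, p, b, c, d] =
      pd q (fun y => T y a [p, b, c, d]) x + ∑ e, chris g a q e x * T x e [p, b, c, d] -
        (∑ e, chris g e q p x * T x a [e, b, c, d] + ∑ e, chris g e q b x * T x a [p, e, c, d] +
          ∑ e, chris g e q c x * T x a [p, b, e, d] +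
          ∑ e, chris g e q d x * T x a [p, b, c, e]) := by
  rw [covD]
  congr 1
  exact Fin.sum_univ_four _

lemma covD6 (g : V → Matrix (Fin 4) (Fin 4) ℝ) (T : V → Fin 4 → List (Fin 4) → ℝ) (x : V)
    (a k q p b c d : Fin 4) : covD g T x a [k, q, p, b, c, d] =
      pd k (fun y => T y a [q, p, b, c, d]) x + ∑ e, chris g a k e x * T x e [q, p, b, c, d] -
        (∑ e, chris g e k q x * T x a [e, p, b, c, d] +
          ∑ e, chris g e k p x * T x a [q, e, b, c, d] +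
          ∑ e, chris g e k b x * T x a [q, p, e, c, d] +
          ∑ e, chris g e k c x * T x a [q, p, b, e, d] +
          ∑ e, chris g e k d x * T x a [q, p, b, c, e]) := by
  rw [covD]
  congr 1
  exact Fin.sum_univ_five _

lemma hess_aux (x : V) (q p : Fin 4) :
    24 * dl 0 p * (-2 * dl 0 q * ex (-2) 0 x) - ∑ e, Ga e q p x * (24 * dl 0 e * ex (-2) 0 x) =
      -72 * ex (-4) 0 x * G1 q p x := by
  have hz := (ex_pos (-2) 0 x).ne'
  simp only [Fin.sum_univ_four]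
  fin_cases q <;> fin_cases p <;>
    simp [dl, Ga, cc, G1, ex_2, ex_m4, ex_m6, ex_m8] <;> field_simp <;> ring

lemma T2_eq (x : V) (a q p b c d : Fin 4) :
    covD g0 (covD g0 (riemT g0)) x a [q, p, b, c, d] =
      (-72 * ex (-4) 0 x * G1 q p x) * E1 a b c d x := by
  have hd : Differentiable ℝ (fun y => 24 * dl 0 p * ex (-2) 0 y) := (ex_diff _ _).const_mul _
  rw [covD5]
  simp only [chris_eq, T1_eq]
  rw [pd_mul q hd (E1_diff _ _ _ _), pd_cmul q _ (ex_diff _ _), pd_ex, E1_par,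
    ← hess_aux x q p]
  simp only [Fin.sum_univ_four]
  ring

lemma T3_eq (x : V) (a k q p b c d : Fin 4) :
    covD g0 (covD g0 (covD g0 (riemT g0))) x a [k, q, p, b, c, d] =
      (-4 * dl 0 k) * ((-72 * ex (-4) 0 x * G1 q p x) * E1 a b c d x) := by
  have hd0 : Differentiable ℝ (fun y => -72 * ex (-4) 0 y) := (ex_diff _ _).const_mul _
  have hd : Differentiable ℝ (fun y => -72 * ex (-4) 0 y * G1 q p y) := hd0.mul (G1_diff _ _)
  rw [covD6]
  simp only [chris_eq, T2_eq]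
  rw [pd_mul k hd (E1_diff _ _ _ _), pd_mul k hd0 (G1_diff _ _), pd_cmul k _ (ex_diff _ _),
    pd_ex, E1_par, G1_par]
  simp only [Fin.sum_univ_four]
  ring

lemma N0 (x : V) (a b c d : Fin 4) : nablaR g0 [] a b c d x =
    (-12 * ex (-2) 0 x) * E1 a b c d x + (-1) * E2 a b c d x := T0_eq x a b c d

lemma N1 (x : V) (p a b c d : Fin 4) : nablaR g0 [p] a b c d x =
    (24 * dl 0 p * ex (-2) 0 x) * E1 a b c d x := T1_eq x a p b c d

lemma N2 (x : V) (q p a b c d : Fin 4) : nablaR g0 [q, p] a b c d x =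
    (-72 * ex (-4) 0 x * G1 q p x) * E1 a b c d x := T2_eq x a q p b c d

lemma N3 (x : V) (k q p a b c d : Fin 4) : nablaR g0 [k, q, p] a b c d x =
    (-4 * dl 0 k) * ((-72 * ex (-4) 0 x * G1 q p x) * E1 a b c d x) := T3_eq x a k q p b c d

/-- the coefficients: `t^(1) = 4 dx_0`, all others zero -/
def tt : List (Fin 4) → ℝ
  | [k] => 4 * dl 0 k
  | _ => 0

lemma ks3 (x : V) : KSEq g0 3 tt x := by
  intro l hl a b c d
  match l, hl with
  | [k, q, p], _ =>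
    have : Finset.Icc 1 3 = {1, 2, 3} := by decide
    rw [this]
    simp [N3, N2, tt]

lemma not_sym (x : V) : nablaR g0 [0] 0 1 0 1 x ≠ 0 := by
  have h1 := ex_pos (-2) 0 x
  have h2 := ex_pos (-6) 0 x
  rw [N1]
  simp [dl, E1, p1, G1]
  exact ⟨h1.ne', h2.ne'⟩

lemma not_ks1 (t : List (Fin 4) → ℝ) (x : V) : ¬ KSEq g0 1 t x := by
  intro h
  have h1 := h [0] rfl 0 1 0 1
  have h2 := h [0] rfl 2 3 2 3
  have hp := ex_pos 2 2 x
  simp [N1, N0, dl, E1, E2, p1, p2, G1, G2, hp.ne'] at h2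
  have h3 := not_sym x
  simp [h2] at h1
  exact h3 h1

lemma not_ks2 (t : List (Fin 4) → ℝ) (x : V) : ¬ KSEq g0 2 t x := by
  intro h
  have h1 := h [1, 1] rfl 0 1 0 1
  have h2 := h [1, 1] rfl 2 3 2 3
  have hp := ex_pos 2 2 x
  have hq := ex_pos (-4) 0 x
  have hr := ex_pos (-6) 0 x
  have : Finset.Icc 1 2 = {1, 2} := by decide
  rw [this] at h1 h2
  simp [N2, N1, N0, dl, E1, E2, p1, p2, G1, G2, hp.ne'] at h2
  simp [N2, N1, h2, dl, E1, p1, G1, hq.ne', hr.ne'] at h1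

theorem main : ∃ g : (Fin 4 → ℝ) → Matrix (Fin 4) (Fin 4) ℝ,
    (∀ i j, ContDiff ℝ (⊤ : ℕ∞) (fun x => g x i j)) ∧ (∀ x, (g x).PosDef) ∧
    (∃ t : (Fin 4 → ℝ) → List (Fin 4) → ℝ, (∀ l, ContDiff ℝ (⊤ : ℕ∞) (fun x => t x l)) ∧
      ∀ x, KSEq g 3 (t x) x) ∧
    (∀ x, ∃ p a b c d, nablaR g [p] a b c d x ≠ 0) ∧
    (∀ x t, ¬ KSEq g 1 t x ∧ ¬ KSEq g 2 t x) :=
  ⟨g0, g0_smooth, g0_posDef, ⟨fun _ => tt, fun _ => contDiff_const, ks3⟩,
    fun x => ⟨0, 0, 1, 0, 1, not_sym x⟩, fun x t => ⟨not_ks1 t x, not_ks2 t x⟩⟩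

end Pool.Agent.H765Z.KS
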