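import Pool.Agent.H765Z.KS.Defs

set_option autoImplicit false

namespace Pool.Agent.H765Z.KS

abbrev V := Fin 4 → ℝ

noncomputable def ex (m : ℝ) (i : Fin 4) (x : V) : ℝ := Real.exp (m * x i)

def dl (i j : Fin 4) : ℝ := if i = j then 1 else 0

lemma ex_hasF (m : ℝ) (i : Fin 4) (x : V) :
    HasFDerivAt (ex m i) ((ex m i x * m) • (ContinuousLinearMap.proj i : V →L[ℝ] ℝ)) x := by
  have h1 : HasFDerivAt (fun y : V => m * y i) (m • (ContinuousLinearMap.proj i : V →L[ℝ] ℝ)) x :=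
    ((ContinuousLinearMap.proj i : V →L[ℝ] ℝ).hasFDerivAt (x := x)).const_mul m
  have h2 := h1.exp
  rw [smul_smul] at h2
  exact h2

lemma ex_diff (m : ℝ) (i : Fin 4) : Differentiable ℝ (ex m i) :=
  fun x => (ex_hasF m i x).differentiableAt

lemma ex_smooth (m : ℝ) (i : Fin 4) : ContDiff ℝ (⊤ : ℕ∞) (ex m i) := by
  unfold ex
  fun_prop

lemma pd_ex (k : Fin 4) (m : ℝ) (i : Fin 4) (x : V) :
    pd k (ex m i) x = m * dl i k * ex m i x := by
  unfold pd
  rw [(ex_hasF m i x).fderiv]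
  simp only [ContinuousLinearMap.smul_apply, ContinuousLinearMap.proj_apply, smul_eq_mul, dl,
    Pi.single_apply]
  ring

lemma pd_add (k : Fin 4) {f h : V → ℝ} (hf : Differentiable ℝ f) (hh : Differentiable ℝ h)
    (x : V) : pd k (fun y => f y + h y) x = pd k f x + pd k h x := by
  unfold pd
  rw [fderiv_fun_add (hf x) (hh x)]
  rfl

lemma pd_mul (k : Fin 4) {f h : V → ℝ} (hf : Differentiable ℝ f) (hh : Differentiable ℝ h)
    (x : V) : pd k (fun y => f y * h y) x = pd k f x * h x + f x * pd k h x := by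
  unfold pd
  rw [fderiv_fun_mul (hf x) (hh x)]
  simp only [ContinuousLinearMap.add_apply, ContinuousLinearMap.smul_apply, smul_eq_mul]
  ring

lemma pd_const (k : Fin 4) (c : ℝ) (x : V) : pd k (fun _ => c) x = 0 := by
  unfold pd
  simp

lemma pd_cmul (k : Fin 4) (c : ℝ) {f : V → ℝ} (hf : Differentiable ℝ f) (x : V) :
    pd k (fun y => c * f y) x = c * pd k f x := by
  rw [pd_mul k (differentiable_const c) hf, pd_const]
  ring

/-- a linear combination of a constant and three exponentials -/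
lemma pd_comb (k : Fin 4) (c0 c1 c2 c3 m1 m2 m3 : ℝ) (i1 i2 i3 : Fin 4) (x : V) :
    pd k (fun y => c0 + c1 * ex m1 i1 y + c2 * ex m2 i2 y + c3 * ex m3 i3 y) x =
      c1 * (m1 * dl i1 k * ex m1 i1 x) + c2 * (m2 * dl i2 k * ex m2 i2 x) +
        c3 * (m3 * dl i3 k * ex m3 i3 x) := by
  have d1 : Differentiable ℝ (fun y => c1 * ex m1 i1 y) := (ex_diff _ _).const_mul _
  have d2 : Differentiable ℝ (fun y => c2 * ex m2 i2 y) := (ex_diff _ _).const_mul _
  have d3 : Differentiable ℝ (fun y => c3 * ex m3 i3 y) := (ex_diff _ _).const_mul _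
  have d0 : Differentiable ℝ (fun _ : V => c0) := differentiable_const _
  rw [pd_add k (f := fun y => c0 + c1 * ex m1 i1 y + c2 * ex m2 i2 y) ((d0.add d1).add d2) d3,
    pd_add k (f := fun y => c0 + c1 * ex m1 i1 y) (d0.add d1) d2, pd_add k d0 d1, pd_const,
    pd_cmul k c1 (ex_diff _ _), pd_cmul k c2 (ex_diff _ _), pd_cmul k c3 (ex_diff _ _),
    pd_ex, pd_ex, pd_ex]
  ring

/-- diagonal entries of the metric -/
noncomputable def dg (x : V) : Fin 4 → ℝ := ![ex 2 0 x, ex (-6) 0 x, 1, ex 2 2 x]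

noncomputable def g0 (x : V) : Matrix (Fin 4) (Fin 4) ℝ := Matrix.diagonal (dg x)

lemma ex_pos (m : ℝ) (i : Fin 4) (x : V) : 0 < ex m i x := Real.exp_pos _

lemma dg_pos (x : V) (i : Fin 4) : 0 < dg x i := by
  fin_cases i <;> simp [dg, ex_pos]

lemma g0_eq (x : V) (i j : Fin 4) : g0 x i j =
    dl i 2 * dl j 2 + (dl i 0 * dl j 0) * ex 2 0 x + (dl i 1 * dl j 1) * ex (-6) 0 x +
      (dl i 3 * dl j 3) * ex 2 2 x := by
  fin_cases i <;> fin_cases j <;> simp [g0, dg, dl]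

lemma g0_smooth (i j : Fin 4) : ContDiff ℝ (⊤ : ℕ∞) (fun x => g0 x i j) := by
  simp only [g0_eq]
  exact ((contDiff_const.add (contDiff_const.mul (ex_smooth _ _))).add
    (contDiff_const.mul (ex_smooth _ _))).add (contDiff_const.mul (ex_smooth _ _))

lemma g0_posDef (x : V) : (g0 x).PosDef := by
  unfold g0
  rw [Matrix.posDef_diagonal_iff]
  exact dg_pos x

lemma g0_inv (x : V) (i j : Fin 4) : (g0 x)⁻¹ i j = dl i j * (dg x i)⁻¹ := by
  have h : (g0 x)⁻¹ = Matrix.diagonal (fun i => (dg x i)⁻¹) := by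
    apply Matrix.inv_eq_right_inv
    unfold g0
    rw [Matrix.diagonal_mul_diagonal]
    ext i j
    by_cases hij : i = j
    · subst hij
      simp [(dg_pos x i).ne']
    · simp [hij]
  rw [h]
  by_cases hij : i = j
  · subst hij
    simp [dl]
  · simp [dl, hij]

lemma pd_g0 (k i j : Fin 4) (x : V) : pd k (fun y => g0 y i j) x =
    (dl i 0 * dl j 0) * (2 * dl 0 k * ex 2 0 x) + (dl i 1 * dl j 1) * (-6 * dl 0 k * ex (-6) 0 x) +
      (dl i 3 * dl j 3) * (2 * dl 2 k * ex 2 2 x) := by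
  simp only [g0_eq]
  exact pd_comb k _ _ _ _ _ _ _ _ _ _ x

lemma ex_2 (x : V) : ex 2 0 x = (ex (-2) 0 x)⁻¹ := by
  unfold ex
  rw [← Real.exp_neg]
  congr 1
  ring

lemma ex_m4 (x : V) : ex (-4) 0 x = (ex (-2) 0 x) ^ 2 := by
  unfold ex
  rw [← Real.exp_nat_mul]
  congr 1
  push_cast
  ring

lemma ex_m6 (x : V) : ex (-6) 0 x = (ex (-2) 0 x) ^ 3 := by
  unfold ex
  rw [← Real.exp_nat_mul]
  congr 1
  push_cast
  ring

lemma ex_m8 (x : V) : ex (-8) 0 x = (ex (-2) 0 x) ^ 4 := by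
  unfold ex
  rw [← Real.exp_nat_mul]
  congr 1
  push_cast
  ring

/-- constant part of the Christoffel symbols -/
def cc (a i j : Fin 4) : ℝ :=
  dl a 0 * dl i 0 * dl j 0 - 3 * (dl a 1 * dl i 0 * dl j 1) - 3 * (dl a 1 * dl i 1 * dl j 0) +
    dl a 3 * dl i 2 * dl j 3 + dl a 3 * dl i 3 * dl j 2

noncomputable def Ga (a i j : Fin 4) (x : V) : ℝ :=
  cc a i j + (3 * (dl a 0 * dl i 1 * dl j 1)) * ex (-8) 0 x +
    (-(dl a 2 * dl i 3 * dl j 3)) * ex 2 2 x + 0 * ex 0 0 x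

lemma chris_eq (a i j : Fin 4) : chris g0 a i j = Ga a i j := by
  funext x
  have hz := (ex_pos (-2) 0 x).ne'
  have hw := (ex_pos 2 2 x).ne'
  unfold chris Ga
  simp only [pd_g0, g0_inv, Fin.sum_univ_four]
  fin_cases a <;> fin_cases i <;> fin_cases j <;>
    simp [dl, dg, cc, ex_2, ex_m6, ex_m8] <;> field_simp <;> ring

lemma pd_Ga (k a i j : Fin 4) (x : V) : pd k (Ga a i j) x =
    (3 * (dl a 0 * dl i 1 * dl j 1)) * (-8 * dl 0 k * ex (-8) 0 x) +
      (-(dl a 2 * dl i 3 * dl j 3)) * (2 * dl 2 k * ex 2 2 x) := by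
  have := pd_comb k (cc a i j) (3 * (dl a 0 * dl i 1 * dl j 1)) (-(dl a 2 * dl i 3 * dl j 3)) 0
    (-8) 2 0 0 2 0 x
  unfold Ga
  rw [this]
  ring

def p1 (a c : Fin 4) : ℝ := dl a 0 * dl c 0 + dl a 1 * dl c 1
def p2 (a c : Fin 4) : ℝ := dl a 2 * dl c 2 + dl a 3 * dl c 3

noncomputable def G1 (i j : Fin 4) (x : V) : ℝ :=
  0 + (dl i 0 * dl j 0) * ex 2 0 x + (dl i 1 * dl j 1) * ex (-6) 0 x + 0 * ex 0 0 x
noncomputable def G2 (i j : Fin 4) (x : V) : ℝ :=
  dl i 2 * dl j 2 + (dl i 3 * dl j 3) * ex 2 2 x + 0 * ex 0 0 x + 0 * ex 0 0 x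

lemma G1_diff (i j : Fin 4) : Differentiable ℝ (G1 i j) :=
  (((differentiable_const _).add ((ex_diff _ _).const_mul _)).add
    ((ex_diff _ _).const_mul _)).add ((ex_diff _ _).const_mul _)

lemma G2_diff (i j : Fin 4) : Differentiable ℝ (G2 i j) :=
  (((differentiable_const _).add ((ex_diff _ _).const_mul _)).add
    ((ex_diff _ _).const_mul _)).add ((ex_diff _ _).const_mul _)

lemma G1_par (k i j : Fin 4) (x : V) : pd k (G1 i j) x =
    ∑ e, Ga e k i x * G1 e j x + ∑ e, Ga e k j x * G1 i e x := by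
  have hz := (ex_pos (-2) 0 x).ne'
  unfold G1
  rw [pd_comb]
  simp only [Fin.sum_univ_four]
  fin_cases k <;> fin_cases i <;> fin_cases j <;>
    simp [dl, Ga, cc, ex_2, ex_m6, ex_m8] <;> field_simp <;> ring

lemma G2_par (k i j : Fin 4) (x : V) : pd k (G2 i j) x =
    ∑ e, Ga e k i x * G2 e j x + ∑ e, Ga e k j x * G2 i e x := by
  unfold G2
  rw [pd_comb]
  simp only [Fin.sum_univ_four]
  fin_cases k <;> fin_cases i <;> fin_cases j <;>
    simp [dl, Ga, cc] <;> ring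

lemma p1_par (k a c : Fin 4) (x : V) :
    ∑ e, Ga a k e x * p1 e c = ∑ e, Ga e k c x * p1 a e := by
  simp only [Fin.sum_univ_four]
  fin_cases k <;> fin_cases a <;> fin_cases c <;> simp [dl, Ga, cc, p1]

lemma p2_par (k a c : Fin 4) (x : V) :
    ∑ e, Ga a k e x * p2 e c = ∑ e, Ga e k c x * p2 a e := by
  simp only [Fin.sum_univ_four]
  fin_cases k <;> fin_cases a <;> fin_cases c <;> simp [dl, Ga, cc, p2]

noncomputable def E1 (a b c d : Fin 4) (x : V) : ℝ := p1 a c * G1 d b x + (-p1 a d) * G1 c b x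
noncomputable def E2 (a b c d : Fin 4) (x : V) : ℝ := p2 a c * G2 d b x + (-p2 a d) * G2 c b x

lemma E1_diff (a b c d : Fin 4) : Differentiable ℝ (E1 a b c d) :=
  ((G1_diff _ _).const_mul _).add ((G1_diff _ _).const_mul _)
lemma E2_diff (a b c d : Fin 4) : Differentiable ℝ (E2 a b c d) :=
  ((G2_diff _ _).const_mul _).add ((G2_diff _ _).const_mul _)

lemma E1_par (k a b c d : Fin 4) (x : V) : pd k (E1 a b c d) x =
    -∑ e, Ga a k e x * E1 e b c d x + ∑ e, Ga e k b x * E1 a e c d x +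
      ∑ e, Ga e k c x * E1 a b e d x + ∑ e, Ga e k d x * E1 a b c e x := by
  unfold E1
  rw [pd_add k ((G1_diff _ _).const_mul _) ((G1_diff _ _).const_mul _),
    pd_cmul k _ (G1_diff _ _), pd_cmul k _ (G1_diff _ _), G1_par, G1_par]
  have h1 := p1_par k a c x
  have h2 := p1_par k a d x
  simp only [Fin.sum_univ_four] at h1 h2 ⊢
  linear_combination (G1 d b x) * h1 - (G1 c b x) * h2

lemma E2_par (k a b c d : Fin 4) (x : V) : pd k (E2 a b c d) x =
    -∑ e, Ga a k e x * E2 e b c d x + ∑ e, Ga e k b x * E2 a e c d x +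
      ∑ e, Ga e k c x * E2 a b e d x + ∑ e, Ga e k d x * E2 a b c e x := by
  unfold E2
  rw [pd_add k ((G2_diff _ _).const_mul _) ((G2_diff _ _).const_mul _),
    pd_cmul k _ (G2_diff _ _), pd_cmul k _ (G2_diff _ _), G2_par, G2_par]
  have h1 := p2_par k a c x
  have h2 := p2_par k a d x
  simp only [Fin.sum_univ_four] at h1 h2 ⊢
  linear_combination (G2 d b x) * h1 - (G2 c b x) * h2

lemma riem_eq (a b c d : Fin 4) (x : V) :
    riem g0 a b c d x = (-12 * ex (-2) 0 x) * E1 a b c d x + (-1) * E2 a b c d x := by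
  have hz := (ex_pos (-2) 0 x).ne'
  unfold riem
  simp only [chris_eq, pd_Ga, Fin.sum_univ_four]
  fin_cases a <;> fin_cases b <;> fin_cases c <;> fin_cases d <;>
    simp [dl, Ga, cc, E1, E2, G1, G2, p1, p2, ex_2, ex_m6, ex_m8] <;> field_simp <;> ring

end Pool.Agent.H765Z.KS
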